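import Mathlib

/-!
# Straight-line gap-planar drawings (definitions)
-/

namespace Pool.Agent.helper6.Gap

/-- The straight segment that represents the edge `e` when the vertex `v` is placed at `P v`. -/
def seg {V : Type*} (P : V → ℝ × ℝ) (e : Sym2 V) : Set (ℝ × ℝ) :=
  convexHull ℝ {x | ∃ v ∈ e, P v = x}

/-- `G` has a straight-line drawing together with a choice of a tunnel at every crossing such
that every edge is the tunnel at at most `k` crossings.  `P` places the vertices, `T e f` says
that `e` is the tunnel at its crossing with `f`. -/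
def StraightGapPlanar {V : Type*} (k : ℕ) (G : SimpleGraph V) : Prop :=
  ∃ (P : V → ℝ × ℝ) (T : Sym2 V → Sym2 V → Prop),
    -- distinct vertices are distinct points
    Function.Injective P ∧
    -- no edge passes through a vertex other than its endpoints
    (∀ e ∈ G.edgeSet, ∀ v, P v ∈ seg P e → v ∈ e) ∧
    -- two edges meet in at most one point
    (∀ e ∈ G.edgeSet, ∀ f ∈ G.edgeSet, e ≠ f → (seg P e ∩ seg P f).Subsingleton) ∧
    -- no three edges share a point that is not a vertex
    (∀ e ∈ G.edgeSet, ∀ f ∈ G.edgeSet, ∀ g ∈ G.edgeSet, e ≠ f → e ≠ g → f ≠ g →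
      ∀ x ∈ seg P e ∩ seg P f ∩ seg P g, x ∈ Set.range P) ∧
    -- at every crossing exactly one of the two edges is the tunnel
    (∀ e ∈ G.edgeSet, ∀ f ∈ G.edgeSet, e ≠ f →
      (∃ x ∈ seg P e ∩ seg P f, x ∉ Set.range P) → Xor (T e f) (T f e)) ∧
    -- every edge is a tunnel at at most `k` crossings
    (∀ e ∈ G.edgeSet, {f | f ∈ G.edgeSet ∧ T e f}.encard ≤ k)

end Pool.Agent.helper6.Gap
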