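import Pool.Agent.helper6.Gap.Infinite

namespace Pool.Agent.helper6.Gap

/-! ### The finite pieces -/

/-- the first `n` vertices of a strip of width `N` -/
def phi (N n : ℕ) (m : Fin n) : VV :=
  ((((m.val / 5) % N : ℕ) : ℤ), (((m.val / 5) / N : ℕ) : ℤ), ⟨m.val % 5, Nat.mod_lt _ (by norm_num)⟩)

theorem phi_injective (N n : ℕ) : Function.Injective (phi N n) := by
  intro m m' h
  unfold phi at h
  simp only [Prod.mk.injEq, Fin.mk.injEq] at h
  obtain ⟨h1, h2, h3⟩ := h
  have h1' : (m.val / 5) % N = (m'.val / 5) % N := by exact_mod_cast h1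
  have h2' : (m.val / 5) / N = (m'.val / 5) / N := by exact_mod_cast h2
  have h4 : m.val / 5 = m'.val / 5 := by
    rw [← Nat.div_add_mod (m.val / 5) N, ← Nat.div_add_mod (m'.val / 5) N, h1', h2']
  ext
  omega

theorem phi_surj {N n R : ℕ} (hR : 5 * (N * R) ≤ n) {I J : ℤ} (c : Fin 5)
    (hI : 0 ≤ I) (hI' : I < N) (hJ : 0 ≤ J) (hJ' : J < R) : ∃ m : Fin n, phi N n m = (I, J, c) := by
  obtain ⟨i, rfl⟩ := Int.eq_ofNat_of_zero_le hI
  obtain ⟨j, rfl⟩ := Int.eq_ofNat_of_zero_le hJ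
  have hi : i < N := by exact_mod_cast hI'
  have hj : j < R := by exact_mod_cast hJ'
  have h1 : N * j + i < N * R := by
    calc N * j + i < N * j + N := by omega
      _ = N * (j + 1) := by ring
      _ ≤ N * R := Nat.mul_le_mul_left _ hj
  have hc := c.isLt
  refine ⟨⟨5 * (N * j + i) + c.val, by omega⟩, ?_⟩
  unfold phi
  have e1 : (5 * (N * j + i) + c.val) / 5 = N * j + i := by omega
  have e2 : (5 * (N * j + i) + c.val) % 5 = c.val := by omega
  have e3 : (N * j + i) % N = i := by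
    rw [Nat.mul_add_mod, Nat.mod_eq_of_lt hi]
  have e4 : (N * j + i) / N = j := by
    rw [Nat.mul_add_div (by omega), Nat.div_eq_of_lt hi, add_zero]
  simp only [e1, e2, e3, e4]

theorem dxy : ∀ k : Fin 32, -1 ≤ dx k ∧ dx k ≤ 1 ∧ -1 ≤ dy k ∧ dy k ≤ 0 := by
  decide +kernel

theorem count {N n R : ℕ} (hR : 5 * (N * R) ≤ n) :
    32 * ((N - 2) * (R - 1)) ≤ (GG.comap (phi N n)).edgeSet.ncard := by
  have hfin : (GG.comap (phi N n)).edgeSet.Finite := Set.toFinite _
  let F : Fin 32 × Fin (N - 2) × Fin (R - 1) → Sym2 VV := fun p =>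
    edge p.1 ((p.2.1.val : ℤ) + 1) ((p.2.2.val : ℤ) + 1)
  have hF : Function.Injective F := by
    rintro ⟨k, i, j⟩ ⟨k', i', j'⟩ h
    obtain ⟨h1, h2, h3⟩ := edge_injective h
    simp only at h1 h2 h3
    have h2' : i = i' := by
      ext
      omega
    have h3' : j = j' := by
      ext
      omega
    rw [h1, h2', h3']
  have hsub : Set.range F ⊆ Sym2.map (phi N n) '' (GG.comap (phi N n)).edgeSet := by
    rintro _ ⟨⟨k, i, j⟩, rfl⟩
    have hi := i.isLt
    have hj := j.isLt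
    obtain ⟨d1, d2, d3, d4⟩ := dxy k
    obtain ⟨m, hm⟩ := phi_surj hR (U k) (I := (i.val : ℤ) + 1) (J := (j.val : ℤ) + 1)
      (by omega) (by omega) (by omega) (by omega)
    obtain ⟨m', hm'⟩ := phi_surj hR (W k) (I := (i.val : ℤ) + 1 + dx k)
      (J := (j.val : ℤ) + 1 + dy k) (by omega) (by omega) (by omega) (by omega)
    have he : Sym2.map (phi N n) s(m, m') = edge k ((i.val : ℤ) + 1) ((j.val : ℤ) + 1) := by
      rw [Sym2.map_mk, hm, hm']
      rfl
    refine ⟨s(m, m'), ?_, he⟩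
    rw [SimpleGraph.mem_edgeSet, SimpleGraph.comap_adj, ← SimpleGraph.mem_edgeSet]
    have : s(phi N n m, phi N n m') = edge k ((i.val : ℤ) + 1) ((j.val : ℤ) + 1) := by
      rw [← he, Sym2.map_mk]
    rw [this]
    exact mem_GG.2 ⟨_, _, _, rfl⟩
  calc 32 * ((N - 2) * (R - 1)) = (Set.range F).ncard := by
        rw [← Set.image_univ, Set.ncard_image_of_injective _ hF, Set.ncard_univ,
          Nat.card_eq_fintype_card]
        simp
    _ ≤ (Sym2.map (phi N n) '' (GG.comap (phi N n)).edgeSet).ncard :=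
        Set.ncard_le_ncard hsub (hfin.image _)
    _ ≤ (GG.comap (phi N n)).edgeSet.ncard := Set.ncard_image_le hfin

theorem arith {q r R : ℕ} (h1 : 2 ≤ r) (h2 : 1 ≤ R) (h3 : R ≤ r)
    (h4 : q < (r + 1) * R + (r + 1)) :
    32 * q + 32 ≤ 32 * ((r + 1 - 2) * (R - 1)) + 128 * r := by
  obtain ⟨r', rfl⟩ : ∃ r', r = r' + 1 := ⟨r - 1, by omega⟩
  obtain ⟨R', rfl⟩ : ∃ R', R = R' + 1 := ⟨R - 1, by omega⟩
  have e1 : r' + 1 + 1 - 2 = r' := by omega
  have e2 : R' + 1 - 1 = R' := by omega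
  rw [e1, e2]
  nlinarith

/-- For every `n` there is a graph with `n` vertices, with a straight-line drawing and two gaps
per edge, and with at least `(32 / 5) n - 58 √n` edges. -/
theorem exists_graph (n : ℕ) : ∃ G : SimpleGraph (Fin n), StraightGapPlanar 2 G ∧
    (32 / 5 : ℝ) * n - 58 * Real.sqrt n ≤ G.edgeSet.ncard := by
  set q := n / 5 with hq
  set r := Nat.sqrt q with hr
  set R := q / (r + 1) with hR
  refine ⟨GG.comap (phi (r + 1) n), GG_gap.comap (phi_injective _ _), ?_⟩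
  have h1 : (r + 1) * R ≤ q := Nat.mul_div_le q (r + 1)
  have h5 : 5 * ((r + 1) * R) ≤ n := by omega
  have hc := count (N := r + 1) (n := n) (R := R) h5
  have hr1 : r * r ≤ q := Nat.sqrt_le q
  have hr2 : q < (r + 1) * (r + 1) := Nat.lt_succ_sqrt q
  have hRr : R ≤ r := by
    have : R < r + 1 := Nat.div_lt_of_lt_mul hr2
    omega
  have h2 : q < (r + 1) * R + (r + 1) := by
    have := Nat.lt_mul_div_succ q (show 0 < r + 1 by omega)
    rw [← hR] at this
    linarith
  have hn : n ≤ 5 * q + 4 := by omega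
  have hsq : (128 / 58 : ℝ) * r ≤ Real.sqrt n := by
    apply Real.le_sqrt_of_sq_le
    have e1 : ((r * r : ℕ) : ℝ) ≤ (q : ℝ) := by exact_mod_cast hr1
    have e2 : ((5 * q : ℕ) : ℝ) ≤ (n : ℝ) := by
      have : 5 * q ≤ n := by omega
      exact_mod_cast this
    push_cast at e1 e2
    nlinarith
  have hnr : (n : ℝ) ≤ 5 * q + 4 := by exact_mod_cast hn
  rcases lt_or_ge r 2 with hlt | hge
  · -- small `n`
    have h3 : n < 20 := by
      have : (r + 1) * (r + 1) ≤ 4 := by
        have : r ≤ 1 := by omega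
        nlinarith
      omega
    have h4 : (n : ℝ) < 20 := by exact_mod_cast h3
    have h6 : (0 : ℝ) ≤ ((GG.comap (phi (r + 1) n)).edgeSet.ncard : ℝ) := Nat.cast_nonneg _
    have h7 : (32 / 5 : ℝ) * n ≤ 58 * Real.sqrt n := by
      have h8 : Real.sqrt n * Real.sqrt n = n := Real.mul_self_sqrt (Nat.cast_nonneg n)
      have h9 : Real.sqrt n ≤ 5 := by
        apply Real.sqrt_le_iff.2
        constructor <;> linarith
      have h10 : 0 ≤ Real.sqrt n := Real.sqrt_nonneg _
      nlinarith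
    linarith
  · have hRpos : 1 ≤ R := by
      rw [hR, Nat.le_div_iff_mul_le (by omega)]
      nlinarith
    have h3 := arith hge hRpos hRr h2
    have h4 : (32 : ℝ) * q + 32 ≤ ((32 * ((r + 1 - 2) * (R - 1)) : ℕ) : ℝ) + 128 * r := by
      exact_mod_cast h3
    have h6 : ((32 * ((r + 1 - 2) * (R - 1)) : ℕ) : ℝ) ≤
        ((GG.comap (phi (r + 1) n)).edgeSet.ncard : ℝ) := by exact_mod_cast hc
    linarith

end Pool.Agent.helper6.Gap
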