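import Pool.Agent.helper6.Gap.Pattern

namespace Pool.Agent.helper6.Gap

/-! ### Geometry of the pattern -/

/-- The point with parameter `t` on the edge of type `k` at the cell `(i, j)`. -/
noncomputable def pt (k : Fin 32) (i j : ℤ) (t : ℝ) : ℝ × ℝ :=
  ((6 * i + ax k) + t * (bx k - ax k), (16 * j + ay k) + t * (by' k - ay k))

theorem seg_mk {V : Type*} (P : V → ℝ × ℝ) (a b : V) : seg P s(a, b) = segment ℝ (P a) (P b) := by
  unfold seg
  rw [← convexHull_pair]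
  congr 1
  ext x
  simp only [Set.mem_ofPred_eq, Sym2.mem_iff, Set.mem_insert_iff, Set.mem_singleton_iff]
  constructor
  · rintro ⟨v, rfl | rfl, rfl⟩
    · exact Or.inl rfl
    · exact Or.inr rfl
  · rintro (rfl | rfl)
    · exact ⟨a, Or.inl rfl, rfl⟩
    · exact ⟨b, Or.inr rfl, rfl⟩

theorem mem_seg_edge {k : Fin 32} {i j : ℤ} {x : ℝ × ℝ} :
    x ∈ seg pos (edge k i j) ↔ ∃ t : ℝ, 0 ≤ t ∧ t ≤ 1 ∧ x = pt k i j t := by
  unfold edge
  rw [seg_mk, segment_eq_image', Set.mem_image]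
  have hp : ∀ t : ℝ, pos (i, j, U k) + t • (pos (i + dx k, j + dy k, W k) - pos (i, j, U k)) =
      pt k i j t := by
    intro t
    unfold pos pt ax ay bx by'
    ext
    · simp only [Prod.fst_add, Prod.smul_fst, Prod.fst_sub, smul_eq_mul]
      push_cast
      ring
    · simp only [Prod.snd_add, Prod.smul_snd, Prod.snd_sub, smul_eq_mul]
      push_cast
      ring
  constructor
  · rintro ⟨t, ⟨h0, h1⟩, rfl⟩
    exact ⟨t, h0, h1, hp t⟩
  · rintro ⟨t, h0, h1, rfl⟩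
    exact ⟨t, ⟨h0, h1⟩, hp t⟩

theorem conv_zero {p q : ℤ} {s : ℝ} (h0 : 0 ≤ s) (h1 : s ≤ 1) (h : (1 - s) * p + s * q = 0) :
    ¬ 0 < p * q := by
  intro hpq
  have hpq' : (0 : ℝ) < (p : ℝ) * q := by exact_mod_cast hpq
  have h2 : (1 - s) * ((p : ℝ) * p) + s * ((p : ℝ) * q) = 0 := by
    linear_combination (p : ℝ) * h
  have h3 : 0 ≤ (1 - s) * ((p : ℝ) * p) := mul_nonneg (by linarith) (mul_self_nonneg _)
  have h4 : 0 ≤ s * ((p : ℝ) * q) := mul_nonneg h0 hpq'.le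
  have h5 : s * ((p : ℝ) * q) = 0 := by linarith
  have h6 : s = 0 := by
    rcases mul_eq_zero.1 h5 with h | h
    · exact h
    · exact absurd h hpq'.ne'
  rw [h6] at h
  have h7 : (p : ℝ) = 0 := by linarith
  rw [h7, zero_mul] at hpq'
  exact lt_irrefl _ hpq'

theorem ge_min {a b : ℤ} {t : ℝ} (h0 : 0 ≤ t) (h1 : t ≤ 1) :
    ((min a b : ℤ) : ℝ) ≤ a + t * (b - a) := by
  rcases le_total a b with h | h
  · rw [min_eq_left h]
    have : (a : ℝ) ≤ b := by exact_mod_cast h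
    nlinarith
  · rw [min_eq_right h]
    have : (b : ℝ) ≤ a := by exact_mod_cast h
    nlinarith

theorem le_max' {a b : ℤ} {t : ℝ} (h0 : 0 ≤ t) (h1 : t ≤ 1) :
    a + t * (b - a) ≤ ((max a b : ℤ) : ℝ) := by
  rcases le_total a b with h | h
  · rw [max_eq_right h]
    have : (a : ℝ) ≤ b := by exact_mod_cast h
    nlinarith
  · rw [max_eq_left h]
    have : (b : ℝ) ≤ a := by exact_mod_cast h
    nlinarith

theorem chk_of {k l : Fin 32} {a b : ℤ} (ha : -2 ≤ a) (ha' : a ≤ 2) (hb : -1 ≤ b) (hb' : b ≤ 1) :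
    chk k l a b = true := by
  obtain ⟨a', rfl⟩ : ∃ a' : Fin 5, (a'.val : ℤ) - 2 = a :=
    ⟨⟨(a + 2).toNat, by omega⟩, by simp only; omega⟩
  obtain ⟨b', rfl⟩ : ∃ b' : Fin 3, (b'.val : ℤ) - 1 = b :=
    ⟨⟨(b + 1).toNat, by omega⟩, by simp only; omega⟩
  exact chk_all k l a' b'

theorem vchk_of {k : Fin 32} {c : Fin 5} {a b : ℤ} (ha : -2 ≤ a) (ha' : a ≤ 2) (hb : -1 ≤ b)
    (hb' : b ≤ 1) : vchk k c a b = true := by
  obtain ⟨a', rfl⟩ : ∃ a' : Fin 5, (a'.val : ℤ) - 2 = a :=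
    ⟨⟨(a + 2).toNat, by omega⟩, by simp only; omega⟩
  obtain ⟨b', rfl⟩ : ∃ b' : Fin 3, (b'.val : ℤ) - 1 = b :=
    ⟨⟨(b + 1).toNat, by omega⟩, by simp only; omega⟩
  exact vchk_all k c a' b'

/-- the box of an edge -/
theorem box {k : Fin 32} {t : ℝ} (h0 : 0 ≤ t) (h1 : t ≤ 1) :
    -5 ≤ (ax k : ℝ) + t * (bx k - ax k) ∧ (ax k : ℝ) + t * (bx k - ax k) ≤ 11 ∧
    -3 ≤ (ay k : ℝ) + t * (by' k - ay k) ∧ (ay k : ℝ) + t * (by' k - ay k) ≤ 14 := by
  obtain ⟨⟨a1, a2, a3, a4⟩, ⟨b1, b2, b3, b4⟩⟩ := bounds k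
  have a1' : (-5 : ℝ) ≤ ax k := by exact_mod_cast a1
  have a2' : (ax k : ℝ) ≤ 11 := by exact_mod_cast a2
  have a3' : (-3 : ℝ) ≤ ay k := by exact_mod_cast a3
  have a4' : (ay k : ℝ) ≤ 14 := by exact_mod_cast a4
  have b1' : (-5 : ℝ) ≤ bx k := by exact_mod_cast b1
  have b2' : (bx k : ℝ) ≤ 11 := by exact_mod_cast b2
  have b3' : (-3 : ℝ) ≤ by' k := by exact_mod_cast b3
  have b4' : (by' k : ℝ) ≤ 14 := by exact_mod_cast b4
  refine ⟨?_, ?_, ?_, ?_⟩ <;> nlinarith

/-- What the check says about two different edges with a common point. -/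
theorem core {k l : Fin 32} {i j i' j' : ℤ} {t s : ℝ} (ht0 : 0 ≤ t) (ht1 : t ≤ 1) (hs0 : 0 ≤ s)
    (hs1 : s ≤ 1) (he : pt k i j t = pt l i' j' s) (hne : ¬ (k = l ∧ i = i' ∧ j = j')) :
    sub1 k l (i' - i) (j' - j) = true ∧
    (shr k l (i' - i) (j' - j) = true ∨ xr k l (i' - i) (j' - j) = true) ∧
    (1 - t) * (s3 k l (i' - i) (j' - j) : ℝ) + t * s4 k l (i' - i) (j' - j) = 0 := by
  have hx : (6 * (i : ℝ) + ax k) + t * (bx k - ax k) = (6 * i' + ax l) + s * (bx l - ax l) :=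
    congrArg Prod.fst he
  have hy : (16 * (j : ℝ) + ay k) + t * (by' k - ay k) = (16 * j' + ay l) + s * (by' l - ay l) :=
    congrArg Prod.snd he
  obtain ⟨k1, k2, k3, k4⟩ := box (k := k) ht0 ht1
  obtain ⟨l1, l2, l3, l4⟩ := box (k := l) hs0 hs1
  obtain ⟨a, ha⟩ : ∃ a, a = i' - i := ⟨_, rfl⟩
  obtain ⟨b, hb⟩ : ∃ b, b = j' - j := ⟨_, rfl⟩
  have hA : (a : ℝ) = (i' : ℝ) - i := by rw [ha]; push_cast; ring
  have hB : (b : ℝ) = (j' : ℝ) - j := by rw [hb]; push_cast; ring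
  rw [← ha, ← hb]
  have hx' : ax k + t * (bx k - ax k) = 6 * (a : ℝ) + (ax l + s * (bx l - ax l)) := by
    rw [hA]; linarith
  have hy' : ay k + t * (by' k - ay k) = 16 * (b : ℝ) + (ay l + s * (by' l - ay l)) := by
    rw [hB]; linarith
  have a1 : (-3 : ℤ) < a := by
    have : ((-3 : ℤ) : ℝ) < a := by push_cast; linarith
    exact_mod_cast this
  have a2 : a < (3 : ℤ) := by
    have : (a : ℝ) < ((3 : ℤ) : ℝ) := by push_cast; linarith
    exact_mod_cast this
  have b1 : (-2 : ℤ) < b := by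
    have : ((-2 : ℤ) : ℝ) < b := by push_cast; linarith
    exact_mod_cast this
  have b2 : b < (2 : ℤ) := by
    have : (b : ℝ) < ((2 : ℤ) : ℝ) := by push_cast; linarith
    exact_mod_cast this
  have h34 : (1 - t) * (s3 k l a b : ℝ) + t * s4 k l a b = 0 := by
    unfold s3 s4 O
    push_cast
    linear_combination ((bx l : ℝ) - ax l) * hy' - ((by' l : ℝ) - ay l) * hx'
  have h12 : (1 - s) * (s1 k l a b : ℝ) + s * s2 k l a b = 0 := by
    unfold s1 s2 O
    push_cast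
    linear_combination ((by' k : ℝ) - ay k) * hx' - ((bx k : ℝ) - ax k) * hy'
  have hc : chk k l a b = true := chk_of (by omega) (by omega) (by omega) (by omega)
  unfold chk at hc
  simp only [Bool.or_eq_true, Bool.and_eq_true, decide_eq_true_eq] at hc
  rcases hc with (((h | h) | h) | h) | h
  · exfalso
    apply hne
    refine ⟨h.1.1, ?_, ?_⟩
    · have := h.1.2; omega
    · have := h.2; omega
  · exfalso
    unfold sep at h
    simp only [Bool.or_eq_true, decide_eq_true_eq] at h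
    have e1 := ge_min (a := ax k) (b := bx k) ht0 ht1
    have e2 := le_max' (a := ax k) (b := bx k) ht0 ht1
    have e3 := ge_min (a := ay k) (b := by' k) ht0 ht1
    have e4 := le_max' (a := ay k) (b := by' k) ht0 ht1
    have f1 := ge_min (a := 6 * a + ax l) (b := 6 * a + bx l) hs0 hs1
    have f2 := le_max' (a := 6 * a + ax l) (b := 6 * a + bx l) hs0 hs1
    have f3 := ge_min (a := 16 * b + ay l) (b := 16 * b + by' l) hs0 hs1
    have f4 := le_max' (a := 16 * b + ay l) (b := 16 * b + by' l) hs0 hs1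
    rcases h with ((h | h) | h) | h
    · have h' := (Int.cast_lt (R := ℝ)).2 h
      push_cast at *
      linarith
    · have h' := (Int.cast_lt (R := ℝ)).2 h
      push_cast at *
      linarith
    · have h' := (Int.cast_lt (R := ℝ)).2 h
      push_cast at *
      linarith
    · have h' := (Int.cast_lt (R := ℝ)).2 h
      push_cast at *
      linarith
  · exact absurd h (conv_zero hs0 hs1 h12)
  · exact absurd h (conv_zero ht0 ht1 h34)
  · exact ⟨h.1, h.2, h34⟩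

/-- Two different edges have at most one common point. -/
theorem t_unique {k l : Fin 32} {i j i' j' : ℤ} {t s t' s' : ℝ} (ht0 : 0 ≤ t) (ht1 : t ≤ 1)
    (hs0 : 0 ≤ s) (hs1 : s ≤ 1) (ht0' : 0 ≤ t') (ht1' : t' ≤ 1) (hs0' : 0 ≤ s') (hs1' : s' ≤ 1)
    (he : pt k i j t = pt l i' j' s) (he' : pt k i j t' = pt l i' j' s')
    (hne : ¬ (k = l ∧ i = i' ∧ j = j')) : t = t' := by
  obtain ⟨h1, _, h3⟩ := core ht0 ht1 hs0 hs1 he hne
  obtain ⟨_, _, h3'⟩ := core ht0' ht1' hs0' hs1' he' hne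
  have hx : (6 * (i : ℝ) + ax k) + t * (bx k - ax k) = (6 * i' + ax l) + s * (bx l - ax l) :=
    congrArg Prod.fst he
  have hx' : (6 * (i : ℝ) + ax k) + t' * (bx k - ax k) = (6 * i' + ax l) + s' * (bx l - ax l) :=
    congrArg Prod.fst he'
  obtain ⟨a, ha⟩ : ∃ a, a = i' - i := ⟨_, rfl⟩
  have hA : (a : ℝ) = (i' : ℝ) - i := by rw [ha]; push_cast; ring
  rw [← ha] at h1 h3 h3'
  unfold sub1 at h1
  simp only [Bool.or_eq_true, Bool.and_eq_true, decide_eq_true_eq] at h1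
  rcases h1 with h | ⟨h, h'⟩
  · have h4 : ((s3 k l a (j' - j) : ℤ) : ℝ) - s4 k l a (j' - j) ≠ 0 := by
      rw [sub_ne_zero]
      exact_mod_cast h
    have h5 : (t - t') * ((s3 k l a (j' - j) : ℝ) - s4 k l a (j' - j)) = 0 := by
      linear_combination h3' - h3
    rcases mul_eq_zero.1 h5 with h6 | h6
    · linarith
    · exact absurd h6 h4
  · have e1 := ge_min (a := ax k) (b := bx k) ht0 ht1
    have e2 := le_max' (a := ax k) (b := bx k) ht0 ht1
    have e1' := ge_min (a := ax k) (b := bx k) ht0' ht1'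
    have e2' := le_max' (a := ax k) (b := bx k) ht0' ht1'
    have f1 := ge_min (a := 6 * a + ax l) (b := 6 * a + bx l) hs0 hs1
    have f2 := le_max' (a := 6 * a + ax l) (b := 6 * a + bx l) hs0 hs1
    have f1' := ge_min (a := 6 * a + ax l) (b := 6 * a + bx l) hs0' hs1'
    have f2' := le_max' (a := 6 * a + ax l) (b := 6 * a + bx l) hs0' hs1'
    have hr := (Int.cast_le (R := ℝ)).2 h'
    have q : (ax k : ℝ) + t * (bx k - ax k) =
        ((6 * a + ax l : ℤ) : ℝ) + s * (((6 * a + bx l : ℤ) : ℝ) - ((6 * a + ax l : ℤ) : ℝ)) := by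
      push_cast
      linarith
    have q' : (ax k : ℝ) + t' * (bx k - ax k) =
        ((6 * a + ax l : ℤ) : ℝ) + s' * (((6 * a + bx l : ℤ) : ℝ) - ((6 * a + ax l : ℤ) : ℝ)) := by
      push_cast
      linarith
    rw [← q] at f1 f2
    rw [← q'] at f1' f2'
    have g1 : (ax k : ℝ) + t * (bx k - ax k) ≤
        ((min (max (ax k) (bx k)) (max (6 * a + ax l) (6 * a + bx l)) : ℤ) : ℝ) := by
      rw [Int.cast_min]
      exact le_min e2 f2
    have g2 : ((max (min (ax k) (bx k)) (min (6 * a + ax l) (6 * a + bx l)) : ℤ) : ℝ) ≤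
        (ax k : ℝ) + t * (bx k - ax k) := by
      rw [Int.cast_max]
      exact max_le e1 f1
    have g1' : (ax k : ℝ) + t' * (bx k - ax k) ≤
        ((min (max (ax k) (bx k)) (max (6 * a + ax l) (6 * a + bx l)) : ℤ) : ℝ) := by
      rw [Int.cast_min]
      exact le_min e2' f2'
    have g2' : ((max (min (ax k) (bx k)) (min (6 * a + ax l) (6 * a + bx l)) : ℤ) : ℝ) ≤
        (ax k : ℝ) + t' * (bx k - ax k) := by
      rw [Int.cast_max]
      exact max_le e1' f1'
    have h4 : (ax k : ℝ) + t * (bx k - ax k) = (ax k : ℝ) + t' * (bx k - ax k) := by linarith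
    have h5 : (t - t') * ((bx k : ℝ) - ax k) = 0 := by linear_combination h4
    rcases mul_eq_zero.1 h5 with h6 | h6
    · linarith
    · exfalso
      apply h
      have : (bx k : ℝ) = ax k := by linarith
      exact_mod_cast this.symm

end Pool.Agent.helper6.Gap
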