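import Pool.Agent.helper6.Gap.Geometry

namespace Pool.Agent.helper6.Gap

theorem edge_injective {k k' : Fin 32} {i j i' j' : ℤ} (h : edge k i j = edge k' i' j') :
    k = k' ∧ i = i' ∧ j = j' := by
  unfold edge at h
  rw [Sym2.eq_iff] at h
  simp only [Prod.mk.injEq] at h
  rcases h with ⟨⟨h1, h2, h3⟩, ⟨h4, h5, h6⟩⟩ | ⟨⟨h1, h2, h3⟩, ⟨h4, h5, h6⟩⟩
  · exact ⟨edge_inj1 k k' h3 h6 (by omega) (by omega), h1, h2⟩
  · exact absurd (show dy k + dy k' = 0 by omega) (edge_inj2 k k' h3 h6 (by omega))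

theorem edge_not_diag (k : Fin 32) (i j : ℤ) : ¬ (edge k i j).IsDiag := by
  unfold edge
  rw [Sym2.mk_isDiag_iff]
  intro h
  simp only [Prod.mk.injEq] at h
  exact edge_inj2 k k h.2.2 h.2.2.symm (by omega) (by omega)

/-- The infinite pattern. -/
def GG : SimpleGraph VV := SimpleGraph.fromEdgeSet {e | ∃ k i j, e = edge k i j}

theorem mem_GG {e : Sym2 VV} : e ∈ GG.edgeSet ↔ ∃ k i j, e = edge k i j := by
  unfold GG
  rw [SimpleGraph.edgeSet_fromEdgeSet]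
  constructor
  · rintro ⟨h, _⟩
    exact h
  · rintro ⟨k, i, j, rfl⟩
    exact ⟨⟨k, i, j, rfl⟩, edge_not_diag k i j⟩

/-- The choice of the tunnels. -/
def TT (e f : Sym2 VV) : Prop :=
  ∃ k i j l i' j', e = edge k i j ∧ f = edge l i' j' ∧ (k, l, i' - i, j' - j) ∈ AS

theorem TT_iff {k l : Fin 32} {i j i' j' : ℤ} :
    TT (edge k i j) (edge l i' j') ↔ (k, l, i' - i, j' - j) ∈ AS := by
  constructor
  · rintro ⟨k1, i1, j1, l1, i1', j1', h1, h2, h3⟩
    obtain ⟨rfl, rfl, rfl⟩ := edge_injective h1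
    obtain ⟨rfl, rfl, rfl⟩ := edge_injective h2
    exact h3
  · intro h
    exact ⟨k, i, j, l, i', j', rfl, rfl, h⟩

theorem pos_injective : Function.Injective pos := by
  rintro ⟨i, j, c⟩ ⟨i', j', c'⟩ h
  unfold pos at h
  simp only [Prod.mk.injEq] at h
  obtain ⟨h1, h2⟩ := h
  have h1' : 6 * i + X c = 6 * i' + X c' := by exact_mod_cast h1
  have h2' : 16 * j + Y c = 16 * j' + Y c' := by exact_mod_cast h2
  have b1 := Xb c
  have b2 := Xb c'
  have hc : c = c' := X_inj c c' (by omega)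
  subst hc
  have e1 : i = i' := by omega
  have e2 : j = j' := by omega
  rw [e1, e2]

theorem pos_mem {k : Fin 32} {i j : ℤ} {v : VV} (h : pos v ∈ seg pos (edge k i j)) :
    v ∈ edge k i j := by
  obtain ⟨i', j', c⟩ := v
  obtain ⟨t, ht0, ht1, he⟩ := mem_seg_edge.1 h
  have hx : ((6 * i' + X c : ℤ) : ℝ) = (6 * i + ax k) + t * (bx k - ax k) :=
    congrArg Prod.fst he
  have hy : ((16 * j' + Y c : ℤ) : ℝ) = (16 * j + ay k) + t * (by' k - ay k) :=
    congrArg Prod.snd he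
  push_cast at hx hy
  obtain ⟨a, ha⟩ : ∃ a, a = i' - i := ⟨_, rfl⟩
  obtain ⟨b, hb⟩ : ∃ b, b = j' - j := ⟨_, rfl⟩
  have hA : (a : ℝ) = (i' : ℝ) - i := by rw [ha]; push_cast; ring
  have hB : (b : ℝ) = (j' : ℝ) - j := by rw [hb]; push_cast; ring
  have hx' : 6 * (a : ℝ) + X c = ax k + t * (bx k - ax k) := by rw [hA]; linarith
  have hy' : 16 * (b : ℝ) + Y c = ay k + t * (by' k - ay k) := by rw [hB]; linarith
  obtain ⟨k1, k2, k3, k4⟩ := box (k := k) ht0 ht1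
  obtain ⟨c1, c2, c3, c4⟩ := Xb c
  have c1' : (1 : ℝ) ≤ X c := by exact_mod_cast c1
  have c2' : (X c : ℝ) ≤ 5 := by exact_mod_cast c2
  have c3' : (2 : ℝ) ≤ Y c := by exact_mod_cast c3
  have c4' : (Y c : ℝ) ≤ 14 := by exact_mod_cast c4
  have a1 : (-2 : ℤ) < a := by
    have : ((-2 : ℤ) : ℝ) < a := by push_cast; linarith
    exact_mod_cast this
  have a2 : a < (2 : ℤ) := by
    have : (a : ℝ) < ((2 : ℤ) : ℝ) := by push_cast; linarith
    exact_mod_cast this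
  have b1 : (-2 : ℤ) < b := by
    have : ((-2 : ℤ) : ℝ) < b := by push_cast; linarith
    exact_mod_cast this
  have b2 : b < (1 : ℤ) := by
    have : (b : ℝ) < ((1 : ℤ) : ℝ) := by push_cast; linarith
    exact_mod_cast this
  have hc : vchk k c a b = true := vchk_of (by omega) (by omega) (by omega) (by omega)
  have e1 := ge_min (a := ax k) (b := bx k) ht0 ht1
  have e2 := le_max' (a := ax k) (b := bx k) ht0 ht1
  have e3 := ge_min (a := ay k) (b := by' k) ht0 ht1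
  have e4 := le_max' (a := ay k) (b := by' k) ht0 ht1
  unfold vchk at hc
  simp only [Bool.or_eq_true, Bool.and_eq_true, decide_eq_true_eq] at hc
  rcases hc with (((((h | h) | h) | h) | h) | h) | h
  · obtain ⟨⟨h1, h2⟩, h3⟩ := h
    have f1 : i' = i := by omega
    have f2 : j' = j := by omega
    rw [f1, f2, h1]
    unfold edge
    exact Sym2.mem_mk_left _ _
  · obtain ⟨⟨h1, h2⟩, h3⟩ := h
    have f1 : i' = i + dx k := by omega
    have f2 : j' = j + dy k := by omega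
    rw [f1, f2, h1]
    unfold edge
    exact Sym2.mem_mk_right _ _
  · exfalso
    apply h
    have : ((O k (6 * a + X c) (16 * b + Y c) : ℤ) : ℝ) = 0 := by
      unfold O
      push_cast
      rw [hx', hy']
      ring
    exact_mod_cast this
  · exfalso
    have h' := (Int.cast_lt (R := ℝ)).2 h
    push_cast at *
    linarith
  · exfalso
    have h' := (Int.cast_lt (R := ℝ)).2 h
    push_cast at *
    linarith
  · exfalso
    have h' := (Int.cast_lt (R := ℝ)).2 h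
    push_cast at *
    linarith
  · exfalso
    have h' := (Int.cast_lt (R := ℝ)).2 h
    push_cast at *
    linarith

theorem subsing {e f : Sym2 VV} (he : e ∈ GG.edgeSet) (hf : f ∈ GG.edgeSet) (hne : e ≠ f) :
    (seg pos e ∩ seg pos f).Subsingleton := by
  obtain ⟨k, i, j, rfl⟩ := mem_GG.1 he
  obtain ⟨l, i', j', rfl⟩ := mem_GG.1 hf
  rintro x ⟨hx1, hx2⟩ y ⟨hy1, hy2⟩
  obtain ⟨t, ht0, ht1, rfl⟩ := mem_seg_edge.1 hx1
  obtain ⟨s, hs0, hs1, hs⟩ := mem_seg_edge.1 hx2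
  obtain ⟨t', ht0', ht1', rfl⟩ := mem_seg_edge.1 hy1
  obtain ⟨s', hs0', hs1', hs'⟩ := mem_seg_edge.1 hy2
  rw [t_unique ht0 ht1 hs0 hs1 ht0' ht1' hs0' hs1' hs hs' (by
    rintro ⟨rfl, rfl, rfl⟩
    exact hne rfl)]

theorem endpoint_mem {V : Type*} (P : V → ℝ × ℝ) {e : Sym2 V} {v : V} (h : v ∈ e) :
    P v ∈ seg P e := subset_convexHull ℝ _ ⟨v, h, rfl⟩

theorem shr_spec {k l : Fin 32} {i j i' j' : ℤ} (h : shr k l (i' - i) (j' - j) = true) :
    ∃ v, v ∈ edge k i j ∧ v ∈ edge l i' j' := by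
  unfold shr at h
  simp only [Bool.or_eq_true, Bool.and_eq_true, decide_eq_true_eq] at h
  unfold edge
  rcases h with ((⟨⟨h1, h2⟩, h3⟩ | ⟨⟨h1, h2⟩, h3⟩) | ⟨⟨h1, h2⟩, h3⟩) | ⟨⟨h1, h2⟩, h3⟩
  · have f1 : i' = i := by omega
    have f2 : j' = j := by omega
    refine ⟨(i, j, U k), Sym2.mem_mk_left _ _, ?_⟩
    rw [f1, f2, h1]
    exact Sym2.mem_mk_left _ _
  · have f1 : i' + dx l = i := by omega
    have f2 : j' + dy l = j := by omega
    refine ⟨(i, j, U k), Sym2.mem_mk_left _ _, ?_⟩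
    rw [f1, f2, h1]
    exact Sym2.mem_mk_right _ _
  · have f1 : i + dx k = i' := by omega
    have f2 : j + dy k = j' := by omega
    refine ⟨(i + dx k, j + dy k, W k), Sym2.mem_mk_right _ _, ?_⟩
    rw [f1, f2, h1]
    exact Sym2.mem_mk_left _ _
  · have f1 : i + dx k = i' + dx l := by omega
    have f2 : j + dy k = j' + dy l := by omega
    refine ⟨(i + dx k, j + dy k, W k), Sym2.mem_mk_right _ _, ?_⟩
    rw [f1, f2, h1]
    exact Sym2.mem_mk_right _ _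

/-- at a crossing exactly one of the two edges is chosen -/
theorem xr_of_cross {k l : Fin 32} {i j i' j' : ℤ} {t s : ℝ} (ht0 : 0 ≤ t) (ht1 : t ≤ 1)
    (hs0 : 0 ≤ s) (hs1 : s ≤ 1) (he : pt k i j t = pt l i' j' s)
    (hne : edge k i j ≠ edge l i' j') (hr : pt k i j t ∉ Set.range pos) :
    xr k l (i' - i) (j' - j) = true ∧
    (1 - t) * (s3 k l (i' - i) (j' - j) : ℝ) + t * s4 k l (i' - i) (j' - j) = 0 := by
  have hne' : ¬ (k = l ∧ i = i' ∧ j = j') := by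
    rintro ⟨rfl, rfl, rfl⟩
    exact hne rfl
  obtain ⟨_, h2, h3⟩ := core ht0 ht1 hs0 hs1 he hne'
  refine ⟨?_, h3⟩
  rcases h2 with h | h
  · exfalso
    apply hr
    obtain ⟨v, hv1, hv2⟩ := shr_spec h
    have hsub := subsing (mem_GG.2 ⟨k, i, j, rfl⟩) (mem_GG.2 ⟨l, i', j', rfl⟩) hne
    have hx : pt k i j t ∈ seg pos (edge k i j) ∩ seg pos (edge l i' j') :=
      ⟨mem_seg_edge.2 ⟨t, ht0, ht1, rfl⟩, mem_seg_edge.2 ⟨s, hs0, hs1, he⟩⟩
    exact ⟨v, hsub ⟨endpoint_mem pos hv1, endpoint_mem pos hv2⟩ hx⟩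
  · exact h

theorem xr_spec {k l : Fin 32} {a b : ℤ} (h : xr k l a b = true) :
    Xor ((k, l, a, b) ∈ AS) ((l, k, -a, -b) ∈ AS) := by
  unfold xr at h
  by_cases h1 : (k, l, a, b) ∈ AS <;> by_cases h2 : (l, k, -a, -b) ∈ AS
  · simp [h1, h2] at h
  · exact Or.inl ⟨h1, h2⟩
  · exact Or.inr ⟨h2, h1⟩
  · simp [h1, h2] at h

theorem xr_mem {k l : Fin 32} {a b : ℤ} (h : xr k l a b = true) : (k, l, a, b) ∈ CR := by
  unfold CR
  rw [List.mem_append, List.mem_map]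
  rcases xr_spec h with ⟨h1, _⟩ | ⟨h1, _⟩
  · exact Or.inl h1
  · exact Or.inr ⟨_, h1, by simp⟩

/-- The infinite pattern is drawn with straight lines and two gaps per edge. -/
theorem GG_gap : StraightGapPlanar 2 GG := by
  refine ⟨pos, TT, pos_injective, ?_, ?_, ?_, ?_, ?_⟩
  · intro e he v hv
    obtain ⟨k, i, j, rfl⟩ := mem_GG.1 he
    exact pos_mem hv
  · intro e he f hf hne
    exact subsing he hf hne
  · rintro e he f hf g hg hef heg hfg x ⟨⟨hx1, hx2⟩, hx3⟩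
    by_contra hr
    obtain ⟨k, i, j, rfl⟩ := mem_GG.1 he
    obtain ⟨l, i', j', rfl⟩ := mem_GG.1 hf
    obtain ⟨m, i'', j'', rfl⟩ := mem_GG.1 hg
    obtain ⟨t, ht0, ht1, rfl⟩ := mem_seg_edge.1 hx1
    obtain ⟨s, hs0, hs1, hs⟩ := mem_seg_edge.1 hx2
    obtain ⟨r, hr0, hr1, hrr⟩ := mem_seg_edge.1 hx3
    obtain ⟨h1, h1'⟩ := xr_of_cross ht0 ht1 hs0 hs1 hs hef hr
    obtain ⟨h2, h2'⟩ := xr_of_cross ht0 ht1 hr0 hr1 hrr heg hr
    have h3 := tchk_all _ (xr_mem h1) _ (xr_mem h2) rfl (by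
      intro h
      simp only [Prod.mk.injEq] at h
      obtain ⟨_, rfl, h4, h5⟩ := h
      apply hfg
      have e1 : i' = i'' := by omega
      have e2 : j' = j'' := by omega
      rw [e1, e2])
    apply h3
    simp only
    have h4 : ((s3 k l (i' - i) (j' - j) * (s3 k m (i'' - i) (j'' - j) -
        s4 k m (i'' - i) (j'' - j)) : ℤ) : ℝ) =
        ((s3 k m (i'' - i) (j'' - j) * (s3 k l (i' - i) (j' - j) -
        s4 k l (i' - i) (j' - j)) : ℤ) : ℝ) := by
      push_cast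
      linear_combination ((s3 k m (i'' - i) (j'' - j) : ℝ) - s4 k m (i'' - i) (j'' - j)) * h1' -
        ((s3 k l (i' - i) (j' - j) : ℝ) - s4 k l (i' - i) (j' - j)) * h2'
    exact_mod_cast h4
  · rintro e he f hf hne ⟨x, ⟨hx1, hx2⟩, hr⟩
    obtain ⟨k, i, j, rfl⟩ := mem_GG.1 he
    obtain ⟨l, i', j', rfl⟩ := mem_GG.1 hf
    obtain ⟨t, ht0, ht1, rfl⟩ := mem_seg_edge.1 hx1
    obtain ⟨s, hs0, hs1, hs⟩ := mem_seg_edge.1 hx2
    obtain ⟨h1, _⟩ := xr_of_cross ht0 ht1 hs0 hs1 hs hne hr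
    rw [TT_iff, TT_iff]
    have := xr_spec h1
    rwa [neg_sub, neg_sub] at this
  · intro e he
    obtain ⟨k, i, j, rfl⟩ := mem_GG.1 he
    have hsub : {f | f ∈ GG.edgeSet ∧ TT (edge k i j) f} ⊆
        (((AS.filter fun p => p.1 = k).toFinset.image fun p =>
          edge p.2.1 (i + p.2.2.1) (j + p.2.2.2) : Finset (Sym2 VV)) : Set (Sym2 VV)) := by
      rintro f ⟨hf, hT⟩
      obtain ⟨l, i', j', rfl⟩ := mem_GG.1 hf
      rw [TT_iff] at hT
      rw [Finset.mem_coe, Finset.mem_image]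
      refine ⟨(k, l, i' - i, j' - j), ?_, ?_⟩
      · rw [List.mem_toFinset, List.mem_filter]
        exact ⟨hT, by simp⟩
      · simp
    refine (Set.encard_le_encard hsub).trans ?_
    rw [Set.encard_coe_eq_coe_finsetCard]
    have h1 : ((AS.filter fun p => p.1 = k).toFinset.image fun p =>
          edge p.2.1 (i + p.2.2.1) (j + p.2.2.2) : Finset (Sym2 VV)).card ≤ 2 :=
      Finset.card_image_le.trans ((List.toFinset_card_le _).trans (AS_card k))
    exact_mod_cast h1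

end Pool.Agent.helper6.Gap
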