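import Pool.Agent.helper6.Gap.Def

/-!
# Two-gap planar graphs with (32/5) n - O(sqrt n) edges: the pattern

The construction is a periodic straight-line drawing with 5 vertices and 32 edges per cell; the
cell is spanned by (6, 0) and (0, 16).  All incidences are checked by integer determinants.
-/

namespace Pool.Agent.helper6.Gap

/-! ### General facts -/

theorem seg_map {V W : Type*} (P : W → ℝ × ℝ) (φ : V → W) (e : Sym2 V) :
    seg (P ∘ φ) e = seg P (Sym2.map φ e) := by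
  unfold seg
  congr 1
  ext x
  simp only [Set.mem_ofPred_eq, Function.comp_apply, Sym2.mem_map]
  constructor
  · rintro ⟨v, hv, rfl⟩
    exact ⟨φ v, ⟨v, hv, rfl⟩, rfl⟩
  · rintro ⟨w, ⟨v, hv, rfl⟩, rfl⟩
    exact ⟨v, hv, rfl⟩

theorem mem_map_of_inj {V W : Type*} {φ : V → W} (hφ : Function.Injective φ) {e : Sym2 V}
    {v : V} (h : φ v ∈ Sym2.map φ e) : v ∈ e := by
  rw [Sym2.mem_map] at h
  obtain ⟨w, hw, hh⟩ := h
  rwa [← hφ hh]

/-- The property passes to induced subgraphs. -/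
theorem StraightGapPlanar.comap {V W : Type*} {k : ℕ} {H : SimpleGraph W}
    (h : StraightGapPlanar k H) {φ : V → W} (hφ : Function.Injective φ) :
    StraightGapPlanar k (H.comap φ) := by
  obtain ⟨P, T, h1, h2, h3, h4, h5, h6⟩ := h
  have hmem : ∀ e : Sym2 V, e ∈ (H.comap φ).edgeSet → Sym2.map φ e ∈ H.edgeSet := by
    intro e
    induction e using Sym2.ind with
    | _ a b => simp
  have hinj : Function.Injective (Sym2.map φ) := Sym2.map.injective hφ
  -- a point of a drawn edge which is a vertex of the big graph is a vertex of the small one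
  have hran : ∀ e ∈ (H.comap φ).edgeSet, ∀ x ∈ seg P (Sym2.map φ e), x ∈ Set.range P →
      x ∈ Set.range (P ∘ φ) := by
    intro e he x hx hr
    obtain ⟨w, rfl⟩ := hr
    have hw := h2 _ (hmem e he) w hx
    rw [Sym2.mem_map] at hw
    obtain ⟨v, _, rfl⟩ := hw
    exact ⟨v, rfl⟩
  refine ⟨P ∘ φ, fun e f => T (Sym2.map φ e) (Sym2.map φ f), h1.comp hφ, ?_, ?_, ?_, ?_, ?_⟩
  · intro e he v hv
    rw [seg_map] at hv
    exact mem_map_of_inj hφ (h2 _ (hmem e he) _ hv)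
  · intro e he f hf hef
    rw [seg_map, seg_map]
    exact h3 _ (hmem e he) _ (hmem f hf) (fun h => hef (hinj h))
  · intro e he f hf g hg hef heg hfg x hx
    rw [seg_map, seg_map, seg_map] at hx
    exact hran e he x hx.1.1 (h4 _ (hmem e he) _ (hmem f hf) _ (hmem g hg)
      (fun h => hef (hinj h)) (fun h => heg (hinj h)) (fun h => hfg (hinj h)) x hx)
  · rintro e he f hf hef ⟨x, hx, hxr⟩
    rw [seg_map, seg_map] at hx
    exact h5 _ (hmem e he) _ (hmem f hf) (fun h => hef (hinj h))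
      ⟨x, hx, fun hr => hxr (hran e he x hx.1 hr)⟩
  · intro e he
    refine le_trans ?_ (h6 _ (hmem e he))
    rw [← hinj.encard_image]
    apply Set.encard_le_encard
    rintro _ ⟨f, ⟨hf, hT⟩, rfl⟩
    exact ⟨hmem f hf, hT⟩

/-! ### The periodic pattern -/

/-- Vertices of the infinite pattern. -/
abbrev VV : Type := ℤ × ℤ × Fin 5

/-- first coordinates of the five points of a cell -/
def X (c : Fin 5) : ℤ := [3, 1, 2, 5, 4].getD c.val 0
/-- second coordinates -/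
def Y (c : Fin 5) : ℤ := [2, 5, 6, 13, 14].getD c.val 0

/-- The placement. -/
def pos (v : VV) : ℝ × ℝ := (((6 * v.1 + X v.2.2 : ℤ) : ℝ), ((16 * v.2.1 + Y v.2.2 : ℤ) : ℝ))

/-- First endpoint (its index in the cell). -/
def U (k : Fin 32) : Fin 5 :=
  [0, 0, 0, 0, 0, 0, 0, 0, 0, 0, 0, 0, 0, 1, 1, 1, 1, 1, 1, 1, 1, 2, 2, 2, 2, 2, 2, 3, 3, 3, 3,
    4].getD k.val 0
/-- Second endpoint (its index in the cell). -/
def W (k : Fin 32) : Fin 5 :=
  [0, 1, 1, 1, 2, 2, 2, 3, 3, 3, 4, 4, 4, 1, 2, 2, 2, 3, 3, 4, 4, 2, 3, 3, 3, 4, 4, 3, 4, 4, 4,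
    4].getD k.val 0
/-- Horizontal shift of the second endpoint. -/
def dx (k : Fin 32) : ℤ :=
  [1, -1, 0, 1, -1, 0, 1, -1, 0, 1, -1, 0, 1, 1, -1, 0, 1, -1, 0, -1, 0, 1, -1, 0, 1, 0, 1, 1, -1,
    0, 1, 1].getD k.val 0
/-- Vertical shift of the second endpoint. -/
def dy (k : Fin 32) : ℤ :=
  [0, 0, 0, 0, 0, 0, 0, -1, -1, -1, -1, -1, -1, 0, 0, 0, 0, 0, 0, -1, -1, 0, 0, 0, 0, 0, 0, 0, 0,
    0, 0, 0].getD k.val 0

/-- The edge of type `k` at the cell `(i, j)`. -/
def edge (k : Fin 32) (i j : ℤ) : Sym2 VV := s((i, j, U k), (i + dx k, j + dy k, W k))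

/-- The list of crossings: `(k, l, s, t)` says that the edge of type `k` at the cell `(i, j)` is
the tunnel at its crossing with the edge of type `l` at the cell `(i + s, j + t)`. -/
def AS : List (Fin 32 × Fin 32 × ℤ × ℤ) :=
  [(0, 19, 1, 0), (0, 20, 1, 0), (1, 5, -1, 0), (1, 19, 0, 0), (3, 1, 1, 0), (3, 4, 1, 0),
   (4, 6, -1, 0), (4, 19, 0, 0), (5, 13, 0, 0), (5, 16, 0, 0), (6, 1, 1, 0), (6, 18, 1, 0),
   (7, 9, -1, 0), (7, 20, 0, 0), (8, 10, 1, 0), (8, 19, 1, 0), (9, 26, 0, -1), (9, 31, 0, -1),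
   (10, 9, -1, 0), (10, 20, 0, 0), (12, 7, 1, 0), (12, 10, 1, 0), (13, 4, 1, 0), (13, 6, 0, 0),
   (14, 6, -1, 0), (14, 16, -1, 0), (16, 4, 1, 0), (16, 17, 1, 0), (17, 6, -1, 0),
   (17, 24, -1, 0), (18, 16, -1, 0), (18, 25, 0, 0), (19, 9, -1, 0), (19, 12, -1, 0),
   (20, 1, 0, 0), (20, 4, 0, 0), (21, 17, 1, 0), (21, 18, 1, 0), (22, 18, 0, 0),
   (22, 26, -1, 0), (24, 22, 1, 0), (24, 25, 1, 0), (25, 9, -1, 1), (25, 28, 0, 0),
   (26, 17, 1, 0), (26, 28, 1, 0), (27, 25, 1, 0), (27, 26, 0, 0), (28, 7, 0, 1),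
   (28, 8, -1, 1), (30, 9, 0, 1), (30, 28, 1, 0), (31, 7, 1, 1), (31, 8, 0, 1)]

/-- all ordered crossings -/
def CR : List (Fin 32 × Fin 32 × ℤ × ℤ) :=
  AS ++ AS.map fun p => (p.2.1, p.1, -p.2.2.1, -p.2.2.2)

def ax (k : Fin 32) : ℤ := X (U k)
def ay (k : Fin 32) : ℤ := Y (U k)
def bx (k : Fin 32) : ℤ := 6 * dx k + X (W k)
def by' (k : Fin 32) : ℤ := 16 * dy k + Y (W k)

/-- orientation of `(p, q)` with respect to the edge of type `k` at the cell `(0, 0)` -/
def O (k : Fin 32) (p q : ℤ) : ℤ := (bx k - ax k) * (q - ay k) - (by' k - ay k) * (p - ax k)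

/-- orientations of the endpoints of the edge of type `k` at `(0, 0)` with respect to the edge of
type `l` at the cell `(s, t)` -/
def s3 (k l : Fin 32) (s t : ℤ) : ℤ := O l (ax k - 6 * s) (ay k - 16 * t)
def s4 (k l : Fin 32) (s t : ℤ) : ℤ := O l (bx k - 6 * s) (by' k - 16 * t)
/-- orientations of the endpoints of the edge of type `l` at `(s, t)` with respect to the edge
of type `k` at `(0, 0)` -/
def s1 (k l : Fin 32) (s t : ℤ) : ℤ := O k (6 * s + ax l) (16 * t + ay l)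
def s2 (k l : Fin 32) (s t : ℤ) : ℤ := O k (6 * s + bx l) (16 * t + by' l)

/-- the pair has disjoint bounding boxes -/
def sep (k l : Fin 32) (s t : ℤ) : Bool :=
  decide (max (ax k) (bx k) < min (6 * s + ax l) (6 * s + bx l)) ||
  decide (max (6 * s + ax l) (6 * s + bx l) < min (ax k) (bx k)) ||
  decide (max (ay k) (by' k) < min (16 * t + ay l) (16 * t + by' l)) ||
  decide (max (16 * t + ay l) (16 * t + by' l) < min (ay k) (by' k))

/-- the two segments have at most one common point -/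
def sub1 (k l : Fin 32) (s t : ℤ) : Bool :=
  decide (s3 k l s t ≠ s4 k l s t) ||
  (decide (ax k ≠ bx k) &&
    decide (min (max (ax k) (bx k)) (max (6 * s + ax l) (6 * s + bx l)) ≤
      max (min (ax k) (bx k)) (min (6 * s + ax l) (6 * s + bx l))))

/-- the two edges have a common endpoint -/
def shr (k l : Fin 32) (s t : ℤ) : Bool :=
  (decide (U k = U l) && decide (s = 0) && decide (t = 0)) ||
  (decide (U k = W l) && decide (s + dx l = 0) && decide (t + dy l = 0)) ||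
  (decide (W k = U l) && decide (dx k = s) && decide (dy k = t)) ||
  (decide (W k = W l) && decide (dx k = s + dx l) && decide (dy k = t + dy l))

/-- exactly one of the two is a tunnel at the crossing -/
def xr (k l : Fin 32) (s t : ℤ) : Bool :=
  xor (decide ((k, l, s, t) ∈ AS)) (decide ((l, k, -s, -t) ∈ AS))

def chk (k l : Fin 32) (s t : ℤ) : Bool :=
  (decide (k = l) && decide (s = 0) && decide (t = 0)) ||
  sep k l s t ||
  decide (0 < s1 k l s t * s2 k l s t) || decide (0 < s3 k l s t * s4 k l s t) ||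
  (sub1 k l s t && (shr k l s t || xr k l s t))

theorem chk_all : ∀ k l : Fin 32, ∀ a : Fin 5, ∀ b : Fin 3,
    chk k l ((a.val : ℤ) - 2) ((b.val : ℤ) - 1) = true := by
  decide +kernel


/-- vertices on edges -/
def vchk (k : Fin 32) (c : Fin 5) (s t : ℤ) : Bool :=
  (decide (c = U k) && decide (s = 0) && decide (t = 0)) ||
  (decide (c = W k) && decide (s = dx k) && decide (t = dy k)) ||
  decide (O k (6 * s + X c) (16 * t + Y c) ≠ 0) ||
  decide (6 * s + X c < min (ax k) (bx k)) || decide (max (ax k) (bx k) < 6 * s + X c) ||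
  decide (16 * t + Y c < min (ay k) (by' k)) || decide (max (ay k) (by' k) < 16 * t + Y c)

theorem vchk_all : ∀ (k : Fin 32) (c : Fin 5), ∀ a : Fin 5, ∀ b : Fin 3,
    vchk k c ((a.val : ℤ) - 2) ((b.val : ℤ) - 1) = true := by
  decide +kernel

/-- no three edges through a common point -/
theorem tchk_all : ∀ p ∈ CR, ∀ q ∈ CR, p.1 = q.1 → p ≠ q →
    s3 p.1 p.2.1 p.2.2.1 p.2.2.2 * (s3 q.1 q.2.1 q.2.2.1 q.2.2.2 - s4 q.1 q.2.1 q.2.2.1 q.2.2.2) ≠
    s3 q.1 q.2.1 q.2.2.1 q.2.2.2 *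
      (s3 p.1 p.2.1 p.2.2.1 p.2.2.2 - s4 p.1 p.2.1 p.2.2.1 p.2.2.2) := by
  decide +kernel

/-- bounds for the coordinates -/
theorem bounds : ∀ k : Fin 32, (-5 ≤ ax k ∧ ax k ≤ 11 ∧ -3 ≤ ay k ∧ ay k ≤ 14) ∧
    (-5 ≤ bx k ∧ bx k ≤ 11 ∧ -3 ≤ by' k ∧ by' k ≤ 14) := by
  decide +kernel

theorem Xb : ∀ c : Fin 5, 1 ≤ X c ∧ X c ≤ 5 ∧ 2 ≤ Y c ∧ Y c ≤ 14 := by
  decide +kernel

theorem X_inj : ∀ c c' : Fin 5, X c = X c' → c = c' := by
  decide +kernel

/-- the types of the edges are different -/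
theorem edge_inj1 : ∀ k k' : Fin 32, U k = U k' → W k = W k' → dx k = dx k' → dy k = dy k' →
    k = k' := by
  decide +kernel

theorem edge_inj2 : ∀ k k' : Fin 32, U k = W k' → W k = U k' → dx k + dx k' = 0 →
    dy k + dy k' ≠ 0 := by
  decide +kernel

theorem AS_card : ∀ k : Fin 32, (AS.filter fun p => p.1 = k).length ≤ 2 := by
  decide +kernel

end Pool.Agent.helper6.Gap
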